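import Mathlib
import Pool.Agent.Helper38.SG.LinDefs
import Pool.Agent.Helper38.SG.Basic

/-! # Sobolev gap, piece LIN-A1: restricted root decomposition (pure linear algebra) -/

open Filter Topology Set
open scoped RealInnerProductSpace ContDiff

universe u

namespace Pool.Agent.Helper51.SG

open Pool.Agent.Helper38.SG

variable {G 𝔤 : Type u} [Group G] [TopologicalSpace G]
  [NormedAddCommGroup 𝔤] [InnerProductSpace ℝ 𝔤] [FiniteDimensional ℝ 𝔤]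

variable (P : ParData G 𝔤)

section A
variable (hsk : ∀ X, P.br X X = 0)
  (hjac : ∀ X Y Z, P.br X (P.br Y Z) = P.br (P.br X Y) Z + P.br Y (P.br X Z))

omit [FiniteDimensional ℝ 𝔤] in
theorem ad_symm {H : 𝔤} (hH : H ∈ P.𝔞) (X Y : 𝔤) : ⟪P.br H X, Y⟫ = ⟪X, P.br H Y⟫ := by
  rw [P.inv, P.θ_𝔞 H hH, map_neg, LinearMap.neg_apply, inner_neg_right, neg_neg]

omit [FiniteDimensional ℝ 𝔤] in
theorem ad_skew {Z : 𝔤} (hZ : Z ∈ P.𝔨) (X Y : 𝔤) : ⟪P.br Z X, Y⟫ = -⟪X, P.br Z Y⟫ := by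
  rw [P.inv, (P.mem_𝔨.1 hZ : P.θ Z = Z)]

/-- `ad H0` -/
abbrev A0 : 𝔤 →ₗ[ℝ] 𝔤 := P.br P.H0

omit [FiniteDimensional ℝ 𝔤] in
theorem A0_symm : (A0 P).IsSymmetric := fun X Y => ad_symm P P.H0.2 X Y

omit [FiniteDimensional ℝ 𝔤] in
theorem θ_A0 (X : 𝔤) : P.θ (A0 P X) = -A0 P (P.θ X) := by
  rw [A0, P.θ_br, P.θ_𝔞 _ P.H0.2, map_neg, LinearMap.neg_apply]

omit [FiniteDimensional ℝ 𝔤] in
theorem inner_k_p {X Y : 𝔤} (hX : P.θ X = X) (hY : P.θ Y = -Y) : ⟪X, Y⟫ = 0 := by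
  have h := P.θ_isom X Y
  rw [hX, hY, inner_neg_right] at h
  linarith

/-- sum of the eigenspaces with eigenvalue at least `t` -/
def F (t : ℝ) : Submodule ℝ 𝔤 := ⨆ μ : Set.Ici t, Module.End.eigenspace (A0 P) μ

omit [FiniteDimensional ℝ 𝔤] in
theorem F_anti {s t : ℝ} (h : s ≤ t) : F P t ≤ F P s :=
  iSup_le fun μ => le_iSup (fun ν : Set.Ici s => Module.End.eigenspace (A0 P) ν)
    ⟨(μ : ℝ), h.trans μ.2⟩

omit [FiniteDimensional ℝ 𝔤] in
theorem eig_le_F {t μ : ℝ} (h : t ≤ μ) : Module.End.eigenspace (A0 P) μ ≤ F P t :=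
  le_iSup (fun ν : Set.Ici t => Module.End.eigenspace (A0 P) ν) ⟨μ, h⟩

omit [FiniteDimensional ℝ 𝔤] in
theorem eig_le_n {μ : ℝ} (h : 0 < μ) : Module.End.eigenspace (A0 P) μ ≤ P.𝔫 :=
  le_iSup (fun ν : Set.Ioi (0 : ℝ) => Module.End.eigenspace (P.br P.H0) ν) ⟨μ, h⟩

omit [FiniteDimensional ℝ 𝔤] in
/-- induction for `𝔫` -/
theorem n_induction {p : 𝔤 → Prop} (h0 : p 0) (hadd : ∀ X Y, p X → p Y → p (X + Y))
    (h : ∀ μ : ℝ, 0 < μ → ∀ X, A0 P X = μ • X → p X) {X : 𝔤} (hX : X ∈ P.𝔫) : p X := by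
  refine Submodule.iSup_induction (fun ν : Set.Ioi (0 : ℝ) =>
    Module.End.eigenspace (P.br P.H0) ν) (motive := p) hX ?_ h0 hadd
  intro μ x hx
  exact h μ μ.2 x (Module.End.mem_eigenspace_iff.1 hx)

omit [FiniteDimensional ℝ 𝔤] in
/-- induction for `F` -/
theorem F_induction {t : ℝ} {p : 𝔤 → Prop} (h0 : p 0) (hadd : ∀ X Y, p X → p Y → p (X + Y))
    (h : ∀ μ : ℝ, t ≤ μ → ∀ X, A0 P X = μ • X → p X) {X : 𝔤} (hX : X ∈ F P t) : p X := by
  refine Submodule.iSup_induction (fun ν : Set.Ici t =>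
    Module.End.eigenspace (A0 P) ν) (motive := p) hX ?_ h0 hadd
  intro μ x hx
  exact h μ μ.2 x (Module.End.mem_eigenspace_iff.1 hx)

omit [FiniteDimensional ℝ 𝔤] in
theorem inner_eig {μ ν : ℝ} (h : μ ≠ ν) {X Y : 𝔤} (hX : A0 P X = μ • X) (hY : A0 P Y = ν • Y) :
    ⟪X, Y⟫ = 0 := by
  have h1 := A0_symm P X Y
  rw [hX, hY, real_inner_smul_left, real_inner_smul_right] at h1
  have h2 : (μ - ν) * ⟪X, Y⟫ = 0 := by linarith
  exact (mul_eq_zero.1 h2).resolve_left (sub_ne_zero.2 h)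

omit [FiniteDimensional ℝ 𝔤] in
theorem inner_n_neg {μ : ℝ} (hμ : μ ≤ 0) {X Y : 𝔤} (hX : X ∈ P.𝔫) (hY : A0 P Y = μ • Y) :
    ⟪X, Y⟫ = 0 := by
  refine n_induction P (p := fun X => ⟪X, Y⟫ = 0) (inner_zero_left _) ?_ ?_ hX
  · intro X X' h1 h2
    rw [inner_add_left, h1, h2, add_zero]
  · intro ν hν X hX
    exact inner_eig P (by linarith : ν ≠ μ) hX hY

omit [FiniteDimensional ℝ 𝔤] in
theorem inner_n_ker {X Y : 𝔤} (hX : X ∈ P.𝔫) (hY : A0 P Y = 0) : ⟪X, Y⟫ = 0 :=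
  inner_n_neg P le_rfl hX (by rw [hY, zero_smul])

omit [FiniteDimensional ℝ 𝔤] in
theorem θ_eig {μ : ℝ} {X : 𝔤} (hX : A0 P X = μ • X) : A0 P (P.θ X) = (-μ) • P.θ X := by
  have h := θ_A0 P X
  rw [hX, map_smul] at h
  rw [neg_smul, h, neg_neg]

omit [FiniteDimensional ℝ 𝔤] in
theorem inner_n_θn {X Y : 𝔤} (hX : X ∈ P.𝔫) (hY : Y ∈ P.𝔫) : ⟪X, P.θ Y⟫ = 0 := by
  refine n_induction P (p := fun Y => ⟪X, P.θ Y⟫ = 0) ?_ ?_ ?_ hY
  · rw [map_zero, inner_zero_right]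
  · intro Y Y' h1 h2
    rw [map_add, inner_add_right, h1, h2, add_zero]
  · intro ν hν Y hY
    exact inner_n_neg P (by linarith : -ν ≤ 0) hX (θ_eig P hY)

/-- induction over eigenvectors -/
theorem top_induction {p : 𝔤 → Prop} (h0 : p 0) (hadd : ∀ X Y, p X → p Y → p (X + Y))
    (h : ∀ (μ : ℝ) (X : 𝔤), A0 P X = μ • X → p X) (X : 𝔤) : p X := by
  have htop : (⨆ μ : ℝ, Module.End.eigenspace (A0 P) μ) = ⊤ := by
    have h1 := (A0_symm P).orthogonalComplement_iSup_eigenspaces_eq_bot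
    rwa [Submodule.orthogonal_eq_bot_iff] at h1
  have hX : X ∈ ⨆ μ : ℝ, Module.End.eigenspace (A0 P) μ := by rw [htop]; trivial
  refine Submodule.iSup_induction (fun μ : ℝ => Module.End.eigenspace (A0 P) μ)
    (motive := p) hX ?_ h0 hadd
  intro μ x hx
  exact h μ x (Module.End.mem_eigenspace_iff.1 hx)

theorem exists_decomp (X : 𝔤) : ∃ a b c : 𝔤, a ∈ P.𝔫 ∧ A0 P b = 0 ∧ c ∈ P.𝔫 ∧
    X = a + b + P.θ c := by
  refine top_induction P (p := fun X => ∃ a b c : 𝔤, a ∈ P.𝔫 ∧ A0 P b = 0 ∧ c ∈ P.𝔫 ∧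
    X = a + b + P.θ c) ?_ ?_ ?_ X
  · exact ⟨0, 0, 0, P.𝔫.zero_mem, map_zero _, P.𝔫.zero_mem, by simp⟩
  · rintro X Y ⟨a, b, c, ha, hb, hc, rfl⟩ ⟨a', b', c', ha', hb', hc', rfl⟩
    refine ⟨a + a', b + b', c + c', P.𝔫.add_mem ha ha', by rw [map_add, hb, hb', add_zero],
      P.𝔫.add_mem hc hc', ?_⟩
    rw [map_add]
    abel
  · intro μ X hX
    rcases lt_trichotomy μ 0 with h | h | h
    · refine ⟨0, 0, P.θ X, P.𝔫.zero_mem, map_zero _, ?_, ?_⟩
      · exact eig_le_n P (by linarith : 0 < -μ) (Module.End.mem_eigenspace_iff.2 (θ_eig P hX))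
      · rw [P.θ_θ]; simp
    · exact ⟨0, X, 0, P.𝔫.zero_mem, by rw [hX, h, zero_smul], P.𝔫.zero_mem, by simp⟩
    · exact ⟨X, 0, 0, eig_le_n P h (Module.End.mem_eigenspace_iff.2 hX), map_zero _,
        P.𝔫.zero_mem, by simp⟩

theorem En_eq {a b c : 𝔤} (ha : a ∈ P.𝔫) (hb : A0 P b = 0) (hc : c ∈ P.𝔫) :
    P.En (a + b + P.θ c) = a := by
  rw [ParData.En]
  refine Submodule.eq_starProjection_of_mem_of_inner_eq_zero ha ?_
  intro w hw
  have : a + b + P.θ c - a = b + P.θ c := by abel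
  rw [this, inner_add_left, real_inner_comm, inner_n_ker P hw hb, real_inner_comm,
    inner_n_θn P hw hc, add_zero]

omit [FiniteDimensional ℝ 𝔤] in
theorem A0_θ_ker {b : 𝔤} (hb : A0 P b = 0) : A0 P (P.θ b) = 0 := by
  have h := θ_A0 P b
  rw [hb, map_zero] at h
  exact neg_eq_zero.1 h.symm

theorem Enb_eq {a b c : 𝔤} (ha : a ∈ P.𝔫) (hb : A0 P b = 0) (hc : c ∈ P.𝔫) :
    P.Enb (a + b + P.θ c) = P.θ c := by
  have h1 : P.Enb (a + b + P.θ c) = P.θ (P.En (P.θ (a + b + P.θ c))) := rfl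
  have h2 : P.θ (a + b + P.θ c) = c + P.θ b + P.θ a := by
    rw [map_add, map_add, P.θ_θ]; abel
  rw [h1, h2, En_eq P hc (A0_θ_ker P hb) ha]

omit [FiniteDimensional ℝ 𝔤] in
theorem ker_split {b : 𝔤} (hb : A0 P b = 0) : (1 / 2 : ℝ) • (b + P.θ b) ∈ P.𝔪 ∧
    (1 / 2 : ℝ) • (b - P.θ b) ∈ P.𝔞 := by
  have hθb := A0_θ_ker P hb
  constructor
  · refine ⟨P.mem_𝔨.2 ?_, ?_⟩
    · rw [map_smul, map_add, P.θ_θ, add_comm]
    · show (1 / 2 : ℝ) • (b + P.θ b) ∈ LinearMap.ker (A0 P)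
      rw [LinearMap.mem_ker, map_smul, map_add, hb, hθb, add_zero, smul_zero]
  · refine P.𝔞_max _ ?_ ?_
    · rw [map_smul, map_sub, P.θ_θ, ← smul_neg, neg_sub]
    · refine P.H0_reg _ ?_
      rw [map_smul]
      have : P.br P.H0 (b - P.θ b) = A0 P b - A0 P (P.θ b) := map_sub _ _ _
      rw [this, hb, hθb, sub_zero, smul_zero]

omit [FiniteDimensional ℝ 𝔤] in
theorem a_ker {H : 𝔤} (hH : H ∈ P.𝔞) : A0 P H = 0 := P.br_𝔞 _ P.H0.2 _ hH

omit [FiniteDimensional ℝ 𝔤] in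
theorem m_ker {Z : 𝔤} (hZ : Z ∈ P.𝔪) : A0 P Z = 0 := hZ.2

theorem Em_ker {b : 𝔤} (hb : A0 P b = 0) : P.Em b = (1 / 2 : ℝ) • (b + P.θ b) := by
  obtain ⟨h1, h2⟩ := ker_split P hb
  rw [ParData.Em]
  refine Submodule.eq_starProjection_of_mem_of_inner_eq_zero h1 ?_
  intro w hw
  have h3 : b - (1 / 2 : ℝ) • (b + P.θ b) = (1 / 2 : ℝ) • (b - P.θ b) := by module
  rw [h3, real_inner_comm]
  exact inner_k_p P (P.mem_𝔨.1 hw.1) (P.θ_𝔞 _ h2)

theorem Ea_ker {b : 𝔤} (hb : A0 P b = 0) : P.Ea b = (1 / 2 : ℝ) • (b - P.θ b) := by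
  obtain ⟨h1, h2⟩ := ker_split P hb
  rw [ParData.Ea]
  refine Submodule.eq_starProjection_of_mem_of_inner_eq_zero h2 ?_
  intro w hw
  have h3 : b - (1 / 2 : ℝ) • (b - P.θ b) = (1 / 2 : ℝ) • (b + P.θ b) := by module
  rw [h3]
  exact inner_k_p P (P.mem_𝔨.1 h1.1) (P.θ_𝔞 _ hw)

theorem Em_eq {a b c : 𝔤} (ha : a ∈ P.𝔫) (hc : c ∈ P.𝔫) :
    P.Em (a + b + P.θ c) = P.Em b := by
  have h1 : ∀ v ∈ P.𝔫, P.Em v = 0 := by
    intro v hv
    rw [ParData.Em, Submodule.starProjection_apply_eq_zero_iff, Submodule.mem_orthogonal']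
    exact fun w hw => inner_n_ker P hv (m_ker P hw)
  have h2 : ∀ v ∈ P.𝔫, P.Em (P.θ v) = 0 := by
    intro v hv
    rw [ParData.Em, Submodule.starProjection_apply_eq_zero_iff, Submodule.mem_orthogonal']
    intro w hw
    rw [← P.θ_isom, P.θ_θ]
    exact inner_n_ker P hv (A0_θ_ker P (m_ker P hw))
  rw [map_add, map_add, h1 a ha, h2 c hc, zero_add, add_zero]

theorem Ea_eq {a b c : 𝔤} (ha : a ∈ P.𝔫) (hc : c ∈ P.𝔫) :
    P.Ea (a + b + P.θ c) = P.Ea b := by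
  have h1 : ∀ v ∈ P.𝔫, P.Ea v = 0 := by
    intro v hv
    rw [ParData.Ea, Submodule.starProjection_apply_eq_zero_iff, Submodule.mem_orthogonal']
    exact fun w hw => inner_n_ker P hv (a_ker P hw)
  have h2 : ∀ v ∈ P.𝔫, P.Ea (P.θ v) = 0 := by
    intro v hv
    rw [ParData.Ea, Submodule.starProjection_apply_eq_zero_iff, Submodule.mem_orthogonal']
    intro w hw
    rw [← P.θ_isom, P.θ_θ]
    exact inner_n_ker P hv (A0_θ_ker P (a_ker P hw))
  rw [map_add, map_add, h1 a ha, h2 c hc, zero_add, add_zero]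

include hsk hjac

/-- `𝔪 ⊕ 𝔞` is the centraliser of `𝔞`, equal to the kernel of `ad H0` -/
theorem ker_H0 (X : 𝔤) : P.br P.H0 X = 0 ↔ X = P.Em X + P.Ea X := by
  constructor
  · intro h
    have h' : A0 P X = 0 := h
    rw [Em_ker P h', Ea_ker P h']
    module
  · intro h
    rw [h]
    have h1 : A0 P (P.Em X) = 0 := m_ker P (Submodule.starProjection_apply_mem _ _)
    have h2 : A0 P (P.Ea X) = 0 := a_ker P (Submodule.starProjection_apply_mem _ _)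
    have h3 : P.br P.H0 (P.Em X + P.Ea X) = A0 P (P.Em X) + A0 P (P.Ea X) := map_add _ _ _
    rw [h3, h1, h2, add_zero]

theorem decomp (X : 𝔤) : X = P.Enb X + P.Em X + P.Ea X + P.En X := by
  obtain ⟨a, b, c, ha, hb, hc, rfl⟩ := exists_decomp P X
  rw [En_eq P ha hb hc, Enb_eq P ha hb hc, Em_eq P ha hc, Ea_eq P ha hc,
    Em_ker P hb, Ea_ker P hb]
  module

theorem iwasawa_decomp (X : 𝔤) : X = P.pK X + P.Ea X + P.pN X := by
  have h1 : P.pK X = P.Em X + P.Enb X + P.En (P.θ X) := rfl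
  have h2 : P.pN X = P.En X - P.En (P.θ X) := rfl
  rw [h1, h2]
  conv_lhs => rw [decomp P hsk hjac X]
  abel

theorem pK_mem (X : 𝔤) : P.pK X ∈ P.𝔨 := by
  have h1 : P.pK X = P.Em X + P.Enb X + P.En (P.θ X) := rfl
  have h2 : P.Enb X = P.θ (P.En (P.θ X)) := rfl
  have h3 : P.θ (P.Em X) = P.Em X :=
    P.mem_𝔨.1 (Submodule.starProjection_apply_mem P.𝔪 X).1
  rw [P.mem_𝔨, h1, h2, map_add, map_add, h3, P.θ_θ]
  abel

theorem pN_mem (X : 𝔤) : P.pN X ∈ P.𝔫 := by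
  have h2 : P.pN X = P.En X - P.En (P.θ X) := rfl
  rw [h2]
  exact P.𝔫.sub_mem (Submodule.starProjection_apply_mem _ _)
    (Submodule.starProjection_apply_mem _ _)

theorem pK_of_mem {X : 𝔤} (hX : X ∈ P.𝔨) : P.pK X = X := by
  have h := iwasawa_decomp P hsk hjac X
  have h2 : P.pN X = P.En X - P.En (P.θ X) := rfl
  rw [(P.mem_𝔨.1 hX : P.θ X = X), sub_self] at h2
  have h3 : P.Ea X = 0 := by
    rw [ParData.Ea, Submodule.starProjection_apply_eq_zero_iff, Submodule.mem_orthogonal']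
    exact fun w hw => inner_k_p P (P.mem_𝔨.1 hX) (P.θ_𝔞 _ hw)
  rw [h2, h3, add_zero, add_zero] at h
  exact h.symm

theorem inner_𝔞_𝔫 {H X : 𝔤} (hH : H ∈ P.𝔞) (hX : X ∈ P.𝔫) : ⟪H, X⟫ = 0 := by
  rw [real_inner_comm]
  exact inner_n_ker P hX (a_ker P hH)

/-- `[𝔪 ⊕ 𝔞, 𝔫] ⊆ 𝔫` -/
theorem br_ker_𝔫 {X Y : 𝔤} (hX : P.br P.H0 X = 0) (hY : Y ∈ P.𝔫) : P.br X Y ∈ P.𝔫 := by
  refine n_induction P (p := fun Y => P.br X Y ∈ P.𝔫) ?_ ?_ ?_ hY
  · rw [map_zero]; exact P.𝔫.zero_mem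
  · intro Y Y' h1 h2
    rw [map_add]; exact P.𝔫.add_mem h1 h2
  · intro μ hμ Y hY
    refine eig_le_n P hμ (Module.End.mem_eigenspace_iff.2 ?_)
    have h := hjac P.H0 X Y
    rw [hX, map_zero, LinearMap.zero_apply, zero_add] at h
    have hY' : P.br P.H0 Y = μ • Y := hY
    rw [hY', map_smul] at h
    exact h

theorem br_eig {μ ν : ℝ} {X Y : 𝔤} (hX : A0 P X = μ • X) (hY : A0 P Y = ν • Y) :
    A0 P (P.br X Y) = (ν + μ) • P.br X Y := by
  have h := hjac P.H0 X Y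
  have hX' : P.br P.H0 X = μ • X := hX
  have hY' : P.br P.H0 Y = ν • Y := hY
  rw [hX', hY', map_smul, map_smul, LinearMap.smul_apply, ← add_smul, add_comm] at h
  exact h

theorem br_𝔫_𝔫 {X Y : 𝔤} (hX : X ∈ P.𝔫) (hY : Y ∈ P.𝔫) : P.br X Y ∈ P.𝔫 := by
  refine n_induction P (p := fun X => P.br X Y ∈ P.𝔫) ?_ ?_ ?_ hX
  · rw [map_zero, LinearMap.zero_apply]; exact P.𝔫.zero_mem
  · intro X X' h1 h2
    rw [map_add, LinearMap.add_apply]; exact P.𝔫.add_mem h1 h2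
  · intro μ hμ X hX
    refine n_induction P (p := fun Y => P.br X Y ∈ P.𝔫) ?_ ?_ ?_ hY
    · rw [map_zero]; exact P.𝔫.zero_mem
    · intro Y Y' h1 h2
      rw [map_add]; exact P.𝔫.add_mem h1 h2
    · intro ν hν Y hY
      exact eig_le_n P (by linarith : 0 < ν + μ)
        (Module.End.mem_eigenspace_iff.2 (br_eig P hsk hjac hX hY))

theorem n_mem_F {X : 𝔤} (hX : X ∈ P.𝔫) : ∃ m : ℝ, 0 < m ∧ X ∈ F P m := by
  refine n_induction P (p := fun X => ∃ m : ℝ, 0 < m ∧ X ∈ F P m) ?_ ?_ ?_ hX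
  · exact ⟨1, one_pos, (F P 1).zero_mem⟩
  · rintro X Y ⟨m, hm, hX⟩ ⟨m', hm', hY⟩
    exact ⟨min m m', lt_min hm hm', (F P _).add_mem (F_anti P (min_le_left _ _) hX)
      (F_anti P (min_le_right _ _) hY)⟩
  · intro μ hμ X hX
    exact ⟨μ, hμ, eig_le_F P le_rfl (Module.End.mem_eigenspace_iff.2 hX)⟩

theorem br_F {s t : ℝ} {X Y : 𝔤} (hX : X ∈ F P s) (hY : Y ∈ F P t) : P.br X Y ∈ F P (t + s) := by
  refine F_induction P (p := fun X => P.br X Y ∈ F P (t + s)) ?_ ?_ ?_ hX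
  · rw [map_zero, LinearMap.zero_apply]; exact (F P _).zero_mem
  · intro X X' h1 h2
    rw [map_add, LinearMap.add_apply]; exact (F P _).add_mem h1 h2
  · intro μ hμ X hX
    refine F_induction P (p := fun Y => P.br X Y ∈ F P (t + s)) ?_ ?_ ?_ hY
    · rw [map_zero]; exact (F P _).zero_mem
    · intro Y Y' h1 h2
      rw [map_add]; exact (F P _).add_mem h1 h2
    · intro ν hν Y hY
      exact eig_le_F P (by linarith : t + s ≤ ν + μ)
        (Module.End.mem_eigenspace_iff.2 (br_eig P hsk hjac hX hY))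

/-- a bound for the eigenvalues -/
theorem exists_bound : ∃ c : ℝ, 0 ≤ c ∧ ∀ (μ : ℝ) (X : 𝔤), A0 P X = μ • X → X ≠ 0 → |μ| ≤ c := by
  refine ⟨‖LinearMap.toContinuousLinearMap (A0 P)‖, norm_nonneg _, fun μ X hX hne => ?_⟩
  have h := (LinearMap.toContinuousLinearMap (A0 P)).le_opNorm X
  rw [LinearMap.coe_toContinuousLinearMap', hX, norm_smul, Real.norm_eq_abs] at h
  exact le_of_mul_le_mul_right h (norm_pos_iff.2 hne)

/-- `ad X` is nilpotent for `X ∈ 𝔫` -/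
theorem nilpotent_ad {X : 𝔤} (hX : X ∈ P.𝔫) : IsNilpotent (P.br X) := by
  obtain ⟨m, hm, hXm⟩ := n_mem_F P hsk hjac hX
  obtain ⟨c, hc0, hc⟩ := exists_bound P hsk hjac
  obtain ⟨n, hn⟩ := exists_nat_gt (2 * c / m)
  have hn' : 2 * c < n * m := by rwa [div_lt_iff₀ hm] at hn
  refine ⟨n, LinearMap.ext fun Y => ?_⟩
  have h1 : ∀ Y : 𝔤, Y ∈ F P (-c) := by
    refine top_induction P (p := fun Y => Y ∈ F P (-c)) (F P _).zero_mem
      (fun _ _ h1 h2 => (F P _).add_mem h1 h2) ?_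
    intro μ Y hY
    by_cases hne : Y = 0
    · rw [hne]; exact (F P _).zero_mem
    · exact eig_le_F P (abs_le.1 (hc μ Y hY hne)).1 (Module.End.mem_eigenspace_iff.2 hY)
  have h2 : ∀ k : ℕ, ∀ Y : 𝔤, (P.br X ^ k) Y ∈ F P (-c + k * m) := by
    intro k
    induction k with
    | zero => intro Y; simpa using h1 Y
    | succ k ih =>
      intro Y
      rw [pow_succ', Module.End.mul_apply]
      have := br_F P hsk hjac hXm (ih Y)
      refine F_anti P (le_of_eq ?_) this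
      push_cast; ring
  have h3 : ∀ Y : 𝔤, Y ∈ F P (-c + n * m) → Y = 0 := by
    intro Y hY
    refine F_induction P (p := fun Y => Y = 0) rfl ?_ ?_ hY
    · rintro Y Y' rfl rfl; simp
    · intro μ hμ Y hY
      by_contra hne
      have := (abs_le.1 (hc μ Y hY hne)).2
      linarith
  rw [h3 _ (h2 n Y), LinearMap.zero_apply]

omit [FiniteDimensional ℝ 𝔤] hsk hjac in
/-- a nilpotent `f` kills the vectors fixed by `exp f` -/
theorem eq_zero_of_exp_fix {f : 𝔤 →L[ℝ] 𝔤} [CompleteSpace 𝔤] (hf : IsNilpotent f) {v : 𝔤}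
    (hv : NormedSpace.exp f v = v) : f v = 0 := by
  classical
  have hex : ∃ m : ℕ, (f ^ m) v = 0 := by
    obtain ⟨m, hm⟩ := hf
    exact ⟨m, by rw [hm]; rfl⟩
  by_contra hne
  set m := Nat.find hex with hmdef
  have hm : (f ^ m) v = 0 := Nat.find_spec hex
  have hmin : ∀ k < m, (f ^ k) v ≠ 0 := fun k hk => Nat.find_min hex hk
  have hm2 : 2 ≤ m := by
    by_contra hlt
    have : m = 0 ∨ m = 1 := by omega
    rcases this with h | h
    · rw [h, pow_zero] at hm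
      have hv0 : v = 0 := hm
      exact hne (by rw [hv0, map_zero])
    · rw [h, pow_one] at hm
      exact hne hm
  have hzero : ∀ k, m ≤ k → (f ^ k) v = 0 := by
    intro k hk
    obtain ⟨j, rfl⟩ := Nat.exists_eq_add_of_le' hk
    rw [pow_add, ContinuousLinearMap.mul_def, ContinuousLinearMap.comp_apply, hm, map_zero]
  have hsum : HasSum (fun n : ℕ => ((n.factorial : ℝ)⁻¹) • (f ^ (m - 2 + n)) v)
      ((f ^ (m - 2)) (NormedSpace.exp f v)) := by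
    have h1 : HasSum (fun n : ℕ => ((n.factorial : ℝ)⁻¹) • f ^ n) (NormedSpace.exp f) :=
      NormedSpace.exp_series_hasSum_exp' (𝕂 := ℝ) f
    have h2 := (ContinuousLinearMap.apply ℝ 𝔤 v).hasSum h1
    have h3 := (f ^ (m - 2)).hasSum h2
    refine h3.congr_fun ?_ 
    intro n
    simp [pow_add]
  have hsum2 : HasSum (fun n : ℕ => ((n.factorial : ℝ)⁻¹) • (f ^ (m - 2 + n)) v)
      ((f ^ (m - 2)) v + (f ^ (m - 1)) v) := by
    have h4 := hasSum_sum_of_ne_finset_zero (L := SummationFilter.unconditional ℕ)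
      (s := Finset.range 2)
      (f := fun n : ℕ => ((n.factorial : ℝ)⁻¹) • (f ^ (m - 2 + n)) v) (by
        intro n hn
        have hn2 : 2 ≤ n := by
          have := Finset.mem_range.not.1 hn
          omega
        have : (f ^ (m - 2 + n)) v = 0 := hzero _ (by omega)
        rw [this, smul_zero])
    have h5 : m - 2 + 1 = m - 1 := by omega
    simpa [Finset.sum_range_succ, h5] using h4
  have h6 := hsum.unique hsum2
  rw [hv] at h6
  have h7 : (f ^ (m - 1)) v = 0 := by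
    have : (f ^ (m - 2)) v + 0 = (f ^ (m - 2)) v + (f ^ (m - 1)) v := by rw [add_zero]; exact h6
    exact (add_left_cancel this).symm
  exact hmin (m - 1) (by omega) h7

/-- `𝔫 ∋ X ↦ e^{ad X} H0` is injective at `0` -/
theorem exp_ad_H0 {X : 𝔤} (hX : X ∈ P.𝔫) :
    (NormedSpace.exp (LinearMap.toContinuousLinearMap (P.br X)) (P.H0 : 𝔤) - P.H0 ∈ P.𝔫) ∧
    (NormedSpace.exp (LinearMap.toContinuousLinearMap (P.br X)) (P.H0 : 𝔤) = P.H0 → X = 0) := by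
  have : CompleteSpace 𝔤 := FiniteDimensional.complete ℝ 𝔤
  have hbr : ∀ X Y : 𝔤, P.br X Y = -P.br Y X := by
    intro X Y
    have h := hsk (X + Y)
    simp only [map_add, LinearMap.add_apply, hsk, zero_add, add_zero] at h
    exact eq_neg_of_add_eq_zero_right h
  set f : 𝔤 →L[ℝ] 𝔤 := LinearMap.toContinuousLinearMap (P.br X) with hf
  have hfapp : ∀ Y, f Y = P.br X Y := fun Y => rfl
  have hAX : A0 P X ∈ P.𝔫 := by
    refine n_induction P (p := fun X => A0 P X ∈ P.𝔫) ?_ ?_ ?_ hX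
    · rw [map_zero]; exact P.𝔫.zero_mem
    · intro X X' h1 h2
      rw [map_add]; exact P.𝔫.add_mem h1 h2
    · intro μ hμ X hX
      rw [hX]
      exact P.𝔫.smul_mem _ (eig_le_n P hμ (Module.End.mem_eigenspace_iff.2 hX))
  have h1 : ∀ n : ℕ, (f ^ (n + 1)) (P.H0 : 𝔤) ∈ P.𝔫 := by
    intro n
    induction n with
    | zero =>
      rw [zero_add, pow_one, hfapp, hbr]
      exact P.𝔫.neg_mem hAX
    | succ n ih =>
      rw [pow_succ', ContinuousLinearMap.mul_def, ContinuousLinearMap.comp_apply, hfapp]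
      exact br_𝔫_𝔫 P hsk hjac hX ih
  constructor
  · have hs : HasSum (fun n : ℕ => ((n.factorial : ℝ)⁻¹) • (f ^ n) (P.H0 : 𝔤))
        (NormedSpace.exp f (P.H0 : 𝔤)) := by
      have h1 : HasSum (fun n : ℕ => ((n.factorial : ℝ)⁻¹) • f ^ n) (NormedSpace.exp f) :=
        NormedSpace.exp_series_hasSum_exp' (𝕂 := ℝ) f
      have h2 := (ContinuousLinearMap.apply ℝ 𝔤 (P.H0 : 𝔤)).hasSum h1
      refine h2.congr_fun ?_
      intro n
      simp
    have hs1 := (hasSum_nat_add_iff' 1).2 hs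
    have hs2 : HasSum (fun n : ℕ => (((n + 1).factorial : ℝ)⁻¹) • (f ^ (n + 1)) (P.H0 : 𝔤))
        (NormedSpace.exp f (P.H0 : 𝔤) - P.H0) := by
      simpa using hs1
    have hcl : IsClosed (P.𝔫 : Set 𝔤) := P.𝔫.closed_of_finiteDimensional
    refine hcl.mem_of_tendsto hs2 (Filter.Eventually.of_forall fun s => ?_)
    exact P.𝔫.sum_mem fun n _ => P.𝔫.smul_mem _ (h1 n)
  · intro hfix
    have hnil : IsNilpotent f := by
      obtain ⟨n, hn⟩ := nilpotent_ad P hsk hjac hX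
      refine ⟨n, ContinuousLinearMap.ext fun Y => ?_⟩
      have : ∀ k : ℕ, ∀ Y, (f ^ k) Y = (P.br X ^ k) Y := by
        intro k
        induction k with
        | zero => intro Y; rfl
        | succ k ih =>
          intro Y
          rw [pow_succ, pow_succ, ContinuousLinearMap.mul_def, ContinuousLinearMap.comp_apply, Module.End.mul_apply, ih]
          rfl
      rw [this, hn]
      rfl
    have h2 := eq_zero_of_exp_fix hnil hfix
    rw [hfapp, hbr, neg_eq_zero] at h2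
    have h3 : A0 P X = 0 := h2
    have h4 := inner_n_ker P hX h3
    exact inner_self_eq_zero.1 h4

end A

end Pool.Agent.Helper51.SG
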