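import Mathlib
import Pool.Agent.Helper38.SG.Mod
import Pool.Agent.Helper38.SG.Avg0Defs
import Pool.Agent.Helper38.SG.InvB
import Pool.Agent.Helper77.SG.Conc

/-! # Sobolev gap, piece AVG-0: `K`-finite approximate units -/

open Filter Topology Set MeasureTheory
open scoped RealInnerProductSpace ContDiff

universe u

namespace Pool.Agent.Helper51.SG

open Pool.Agent.Helper38.SG

/-! ### linear algebra -/

theorem exists_onb {W : Type*} [AddCommGroup W] [Module ℂ W] [FiniteDimensional ℂ W]
    (cd : InnerProductSpace.Core ℂ W) : ∃ (n : ℕ) (b : Fin n → W),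
    (∀ i j, cd.inner (b i) (b j) = if i = j then 1 else 0) ∧
    (∀ w, ∑ i, cd.inner (b i) w • b i = w) ∧
    (∀ v w, ‖cd.inner v w‖ ≤ √((cd.inner v v).re) * √((cd.inner w w).re)) := by
  let _ : NormedAddCommGroup W := cd.toNormedAddCommGroup
  let _ : InnerProductSpace ℂ W := InnerProductSpace.ofCore cd.toCore
  have _ : FiniteDimensional ℂ W := inferInstance
  let B := stdOrthonormalBasis ℂ W
  refine ⟨_, B, ?_, ?_, ?_⟩
  · intro i j
    exact orthonormal_iff_ite.1 B.orthonormal i j
  · intro w
    exact B.sum_repr' w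
  · intro v w
    exact norm_inner_le_norm (𝕜 := ℂ) v w

/-! ### finite rank kernels -/

section FR

variable {G 𝔤 : Type u} [Group G] [TopologicalSpace G] [IsTopologicalGroup G] [T2Space G]
  [NormedAddCommGroup 𝔤] [InnerProductSpace ℝ 𝔤] [FiniteDimensional ℝ 𝔤] {P : ParData G 𝔤}

omit [T2Space G] [FiniteDimensional ℝ 𝔤] in
theorem finRank_of {ι : Type*} [Fintype ι] {φ : P.K → ℝ} (a b : ι → P.K → ℝ)
    (ha : ∀ i, Continuous (a i)) (hb : ∀ i, Continuous (b i))
    (h : ∀ k l, φ (k * l) = ∑ i, a i k * b i l) : FinRank P φ := by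
  let e := Fintype.equivFin ι
  refine ⟨Fintype.card ι, fun i => a (e.symm i), fun i => b (e.symm i), fun i => ha _,
    fun i => hb _, fun k l => ?_⟩
  rw [h]
  exact (Equiv.sum_comp e.symm (fun i => a i k * b i l)).symm

omit [T2Space G] [FiniteDimensional ℝ 𝔤] in
theorem finRank_const (c : ℝ) : FinRank P (fun _ => c) :=
  ⟨1, fun _ _ => c, fun _ _ => 1, fun _ => continuous_const, fun _ => continuous_const,
    fun k l => by simp⟩

omit [T2Space G] [FiniteDimensional ℝ 𝔤] in
theorem FinRank.add {φ ψ : P.K → ℝ} (hφ : FinRank P φ) (hψ : FinRank P ψ) :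
    FinRank P (fun k => φ k + ψ k) := by
  obtain ⟨n, a, b, ha, hb, h⟩ := hφ
  obtain ⟨m, a', b', ha', hb', h'⟩ := hψ
  refine finRank_of (ι := Fin n ⊕ Fin m) (Sum.elim a a') (Sum.elim b b') ?_ ?_ ?_
  · rintro (i | i)
    · exact ha i
    · exact ha' i
  · rintro (i | i)
    · exact hb i
    · exact hb' i
  · intro k l
    rw [h, h', Fintype.sum_sum_type]
    rfl

omit [T2Space G] [FiniteDimensional ℝ 𝔤] in
theorem FinRank.mul {φ ψ : P.K → ℝ} (hφ : FinRank P φ) (hψ : FinRank P ψ) :
    FinRank P (fun k => φ k * ψ k) := by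
  obtain ⟨n, a, b, ha, hb, h⟩ := hφ
  obtain ⟨m, a', b', ha', hb', h'⟩ := hψ
  refine finRank_of (ι := Fin n × Fin m) (fun i k => a i.1 k * a' i.2 k)
    (fun i k => b i.1 k * b' i.2 k) (fun i => (ha _).mul (ha' _)) (fun i => (hb _).mul (hb' _)) ?_
  intro k l
  rw [h, h', Fintype.sum_prod_type, Finset.sum_mul_sum]
  refine Finset.sum_congr rfl fun i _ => Finset.sum_congr rfl fun j _ => ?_
  ring

omit [T2Space G] [FiniteDimensional ℝ 𝔤] in
theorem FinRank.const_mul {φ : P.K → ℝ} (hφ : FinRank P φ) (c : ℝ) :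
    FinRank P (fun k => c * φ k) := FinRank.mul (finRank_const c) hφ

omit [T2Space G] [FiniteDimensional ℝ 𝔤] in
theorem FinRank.pow {φ : P.K → ℝ} (hφ : FinRank P φ) (J : ℕ) : FinRank P (fun k => φ k ^ J) := by
  induction J with
  | zero => simpa using finRank_const (P := P) 1
  | succ J ih =>
    have := FinRank.mul ih hφ
    simpa [pow_succ] using this

omit [T2Space G] [FiniteDimensional ℝ 𝔤] in
theorem FinRank.sum {ι : Type*} (s : Finset ι) {φ : ι → P.K → ℝ} (hφ : ∀ i ∈ s, FinRank P (φ i)) :
    FinRank P (fun k => ∑ i ∈ s, φ i k) := by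
  classical
  induction s using Finset.induction_on with
  | empty => simpa using finRank_const (P := P) 0
  | insert i s hi ih =>
    have h1 := FinRank.add (hφ i (Finset.mem_insert_self _ _))
      (ih fun j hj => hφ j (Finset.mem_insert_of_mem hj))
    refine cast ?_ h1
    congr 1
    funext k
    rw [Finset.sum_insert hi]

end FR

/-! ### continuity of parametric integrals -/

theorem continuous_integral_param {X Y : Type*} [TopologicalSpace X] [TopologicalSpace Y]
    [CompactSpace Y] [MeasurableSpace Y] [BorelSpace Y] (μ : Measure Y) [IsProbabilityMeasure μ]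
    {g : X × Y → ℂ} (hg : Continuous g) : Continuous fun x => ∫ y, g (x, y) ∂μ := by
  let Gm : C(X, C(Y, ℂ)) := ContinuousMap.curry ⟨g, hg⟩
  have hint : ∀ u : C(Y, ℂ), Integrable u μ := fun u =>
    u.continuous.integrable_of_hasCompactSupport (HasCompactSupport.of_compactSpace _)
  have hI : Continuous fun u : C(Y, ℂ) => ∫ y, u y ∂μ := by
    refine LipschitzWith.continuous (K := 1) (LipschitzWith.of_dist_le_mul fun u v => ?_)
    rw [dist_eq_norm, ← integral_sub (hint u) (hint v), NNReal.coe_one, one_mul]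
    refine (norm_integral_le_of_norm_le_const (C := dist u v) (Eventually.of_forall fun y => ?_)).trans
      ?_
    · rw [← dist_eq_norm]
      exact ContinuousMap.dist_apply_le_dist y
    · simp
  exact hI.comp Gm.continuous

/-! ### the pairing on `V` -/

section Pr

variable {G 𝔤 : Type u} [Group G] [TopologicalSpace G] [IsTopologicalGroup G] [T2Space G]
  [NormedAddCommGroup 𝔤] [InnerProductSpace ℝ 𝔤] [FiniteDimensional ℝ 𝔤] {P : ParData G 𝔤}
  {U : Type u} [NormedAddCommGroup U] [InnerProductSpace ℂ U] [FiniteDimensional ℂ U]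
  {R : RepData P U}
  [MeasurableSpace P.K] [BorelSpace P.K] (μ : Measure P.K) [IsProbabilityMeasure μ]
  [μ.IsMulLeftInvariant] [μ.IsMulRightInvariant] [μ.IsInvInvariant] [μ.IsOpenPosMeasure]

/-- the pairing on `V` -/
noncomputable def pr (h f : V R) : ℂ := pair μ (h : G → U) (f : G → U)

omit [T2Space G] [MeasurableSpace P.K] [BorelSpace P.K] [IsTopologicalGroup G]
  [FiniteDimensional ℂ U] in
theorem cont_inner (h f : V R) :
    Continuous fun k : P.K => inner ℂ ((h : G → U) k) ((f : G → U) k) :=
  (h.2.1.comp continuous_subtype_val).inner (f.2.1.comp continuous_subtype_val)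

omit [T2Space G] [IsTopologicalGroup G] [FiniteDimensional ℂ U] [μ.IsMulLeftInvariant]
  [μ.IsMulRightInvariant] [μ.IsInvInvariant] [μ.IsOpenPosMeasure] in
theorem int_inner (h f : V R) :
    Integrable (fun k : P.K => inner ℂ ((h : G → U) k) ((f : G → U) k)) μ :=
  (cont_inner h f).integrable_of_hasCompactSupport (HasCompactSupport.of_compactSpace _)

theorem pr_add_left (h h' f : V R) : pr μ (h + h') f = pr μ h f + pr μ h' f := by
  unfold pr pair
  rw [← integral_add (int_inner μ h f) (int_inner μ h' f)]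
  refine integral_congr_ae (Eventually.of_forall fun k => ?_)
  show inner ℂ ((h : G → U) k + (h' : G → U) k) ((f : G → U) k) = _
  rw [inner_add_left]

theorem pr_smul_left (c : ℂ) (h f : V R) :
    pr μ (c • h) f = (starRingEnd ℂ) c * pr μ h f := by
  unfold pr pair
  rw [← integral_const_mul]
  refine integral_congr_ae (Eventually.of_forall fun k => ?_)
  show inner ℂ (c • (h : G → U) k) ((f : G → U) k) = _
  rw [inner_smul_left]

theorem pr_conj (h f : V R) : (starRingEnd ℂ) (pr μ f h) = pr μ h f := by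
  unfold pr pair
  rw [← integral_conj]
  refine integral_congr_ae (Eventually.of_forall fun k => ?_)
  exact inner_conj_symm _ _

theorem pr_self_re (f : V R) : (pr μ f f).re = ∫ k : P.K, ‖(f : G → U) k‖ ^ 2 ∂μ := by
  unfold pr pair
  have h1 := integral_re (𝕜 := ℂ) (int_inner μ f f)
  have h2 : ∀ k : P.K, RCLike.re (inner ℂ ((f : G → U) k) ((f : G → U) k)) =
      ‖(f : G → U) k‖ ^ 2 := fun k => by
    rw [inner_self_eq_norm_sq]
  simp only [h2] at h1
  exact h1.symm

theorem pr_self_nonneg (f : V R) : 0 ≤ (pr μ f f).re := by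
  rw [pr_self_re]
  exact integral_nonneg fun k => by positivity

theorem pr_definite (f : V R) (h : pr μ f f = 0) : f = 0 := by
  have h1 : ∫ k : P.K, ‖(f : G → U) k‖ ^ 2 ∂μ = 0 := by
    rw [← pr_self_re, h]; rfl
  have hc : Continuous fun k : P.K => ‖(f : G → U) k‖ ^ 2 :=
    ((f.2.1.comp continuous_subtype_val).norm).pow 2
  have h2 : (fun k : P.K => ‖(f : G → U) k‖ ^ 2) = 0 := by
    have h3 := (integral_eq_zero_iff_of_nonneg (fun k => by positivity)
      (hc.integrable_of_hasCompactSupport (HasCompactSupport.of_compactSpace _))).1 h1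
    exact (hc.ae_eq_iff_eq μ continuous_const).1 h3
  have h4 : ∀ k : P.K, (f : G → U) k = 0 := by
    intro k
    have := congrFun h2 k
    simpa using this
  ext x
  rw [f.2.2.1.apply_eq x]
  have h5 := h4 ⟨P.κ x, P.κ_mem x⟩
  have h6 : (f : G → U) (P.κ x) = 0 := h5
  rw [h6, smul_zero]
  rfl

theorem pr_kact (k : P.K) (h f : V R) : pr μ (kact R k h) (kact R k f) = pr μ h f :=
  pair_lt_K μ k.2

theorem pr_kact_left (k : P.K) (h f : V R) : pr μ (kact R k h) f = pr μ h (kact R k⁻¹ f) := by
  have h1 := pr_kact μ k h (kact R k⁻¹ f)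
  rw [← Module.End.mul_apply, ← map_mul, mul_inv_cancel, map_one, Module.End.one_apply] at h1
  exact h1

theorem continuous_pr (h f : V R) : Continuous fun k : P.K => pr μ h (kact R k f) := by
  have hc : Continuous fun p : P.K × P.K =>
      inner ℂ ((h : G → U) p.2) ((f : G → U) (((p.1 : G))⁻¹ * (p.2 : G))) := by
    have h1 : Continuous fun p : P.K × P.K => (h : G → U) p.2 :=
      h.2.1.comp (continuous_subtype_val.comp continuous_snd)
    have h2 : Continuous fun p : P.K × P.K => (f : G → U) (((p.1 : G))⁻¹ * (p.2 : G)) :=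
      f.2.1.comp (((continuous_subtype_val.comp continuous_fst).inv).mul
        (continuous_subtype_val.comp continuous_snd))
    exact h1.inner h2
  exact continuous_integral_param μ hc

theorem pr_add_right (h f f' : V R) : pr μ h (f + f') = pr μ h f + pr μ h f' := by
  rw [← pr_conj, pr_add_left, map_add, pr_conj, pr_conj]

theorem pr_smul_right (c : ℂ) (h f : V R) : pr μ h (c • f) = c * pr μ h f := by
  rw [← pr_conj, pr_smul_left, map_mul, Complex.conj_conj, pr_conj]

/-- the pairing as a linear map in the right variable -/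
noncomputable def prR (h : V R) : V R →ₗ[ℂ] ℂ where
  toFun f := pr μ h f
  map_add' f f' := pr_add_right μ h f f'
  map_smul' c f := pr_smul_right μ c h f

theorem pr_sub_self_re (x y : V R) : (pr μ (x - y) (x - y)).re =
    (pr μ x x).re + (pr μ y y).re - 2 * (pr μ y x).re := by
  have hsub : x - y = x + (-1 : ℂ) • y := by
    rw [sub_eq_add_neg]
    congr 1
    exact (neg_one_smul ℂ y).symm
  have hxy : (pr μ x y).re = (pr μ y x).re := by
    rw [← pr_conj μ x y, Complex.conj_re]
  rw [hsub, pr_add_left, pr_add_right, pr_add_right, pr_smul_left, pr_smul_right, pr_smul_left,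
    pr_smul_right]
  simp only [map_neg, map_one, neg_mul, one_mul, Complex.add_re, Complex.neg_re, neg_neg, hxy]
  ring

theorem pr_self_eq_zero_of_re {f : V R} (h : (pr μ f f).re = 0) : f = 0 := by
  apply pr_definite μ
  have h1 := congrArg Complex.im (pr_conj μ f f)
  rw [Complex.conj_im] at h1
  refine Complex.ext h ?_
  rw [Complex.zero_im]
  linarith

/-- AVG-0: for a finite dimensional `K`-stable `W ⊆ V` there are kernels concentrated near the
set of elements acting trivially on `W`. -/
theorem exists_kernel (W : Submodule ℂ (V R)) [FiniteDimensional ℂ W]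
    (hW : ∀ k, ∀ w ∈ W, kact R k w ∈ W) {O : Set P.K} (hO : IsOpen O)
    (hWO : ∀ k : P.K, (∀ w ∈ W, kact R k w = w) → k ∈ O) {ε : ℝ} (hε : 0 < ε) :
    ∃ φ : P.K → ℝ, Kernel μ φ ∧ ∫ k in Oᶜ, φ k ∂μ ≤ ε := by
  classical
  let cd : InnerProductSpace.Core ℂ W :=
    { inner := fun v w => pr μ (v : V R) (w : V R)
      conj_inner_symm := fun v w => pr_conj μ _ _
      re_inner_nonneg := fun v => pr_self_nonneg μ _
      add_left := fun v v' w => pr_add_left μ _ _ _
      smul_left := fun v w c => pr_smul_left μ c _ _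
      definite := fun v hv => Subtype.ext (pr_definite μ _ hv) }
  obtain ⟨n, b, hb1, hb2, hb3⟩ := exists_onb cd
  -- matrix coefficients
  set m : Fin n → Fin n → P.K → ℂ := fun i j k => pr μ (b i : V R) (kact R k (b j : V R)) with hm
  have hmc : ∀ i j, Continuous (m i j) := fun i j => continuous_pr μ _ _
  have hexp : ∀ (l : P.K) (i : Fin n), kact R l (b i : V R) = ∑ j, m j i l • (b j : V R) := by
    intro l i
    have h1 := hb2 ⟨kact R l (b i : V R), hW l _ (b i).2⟩
    have h2 := congrArg (Subtype.val : W → V R) h1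
    rw [AddSubmonoidClass.coe_finsetSum] at h2
    exact h2.symm
  have hmul : ∀ i k l, m i i (k * l) = ∑ j, m i j k * m j i l := by
    intro i k l
    show pr μ (b i : V R) (kact R (k * l) (b i : V R)) = _
    rw [map_mul, Module.End.mul_apply, hexp l i, map_sum]
    show prR μ (b i : V R) (∑ j, kact R k (m j i l • (b j : V R))) = _
    rw [map_sum]
    refine Finset.sum_congr rfl fun j _ => ?_
    rw [map_smul, map_smul, smul_eq_mul, mul_comm]
    rfl
  have hone : ∀ i, pr μ (b i : V R) (b i : V R) = 1 := by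
    intro i
    have := hb1 i i
    rw [if_pos rfl] at this
    exact this
  have hle : ∀ i k, (m i i k).re ≤ 1 ∧ -1 ≤ (m i i k).re := by
    intro i k
    have h1 := hb3 (b i) ⟨kact R k (b i : V R), hW k _ (b i).2⟩
    have h2 : cd.inner (b i) (b i) = 1 := hone i
    have h3 : cd.inner (⟨kact R k (b i : V R), hW k _ (b i).2⟩ : W)
        ⟨kact R k (b i : V R), hW k _ (b i).2⟩ = 1 := by
      show pr μ (kact R k (b i : V R)) (kact R k (b i : V R)) = 1
      rw [pr_kact, hone]
    rw [h2, h3] at h1
    simp only [Complex.one_re, Real.sqrt_one, mul_one] at h1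
    have h4 : ‖m i i k‖ ≤ 1 := h1
    have h5 := (abs_le.1 ((Complex.abs_re_le_norm (m i i k)).trans h4))
    exact ⟨h5.2, h5.1⟩
  have hfr : ∀ i, FinRank P (fun k => (m i i k).re) := by
    intro i
    refine finRank_of (ι := Fin n ⊕ Fin n)
      (Sum.elim (fun j k => (m i j k).re) (fun j k => -(m i j k).im))
      (Sum.elim (fun j l => (m j i l).re) (fun j l => (m j i l).im)) ?_ ?_ ?_
    · rintro (j | j)
      · exact Complex.continuous_re.comp (hmc i j)
      · exact (Complex.continuous_im.comp (hmc i j)).neg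
    · rintro (j | j)
      · exact Complex.continuous_re.comp (hmc j i)
      · exact Complex.continuous_im.comp (hmc j i)
    · intro k l
      rw [hmul, Fintype.sum_sum_type, ← Finset.sum_add_distrib, Complex.re_sum]
      refine Finset.sum_congr rfl fun j _ => ?_
      simp only [Sum.elim_inl, Sum.elim_inr, Complex.mul_re]
      ring
  -- the function F
  set C : ℝ := 4 * n + 1 with hC
  have hCpos : 0 < C := by positivity
  set q : P.K → ℝ := fun k => ∑ i, (2 - 2 * (m i i k).re) with hq
  have hqc : Continuous q := continuous_finsetSum _ fun i _ =>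
    continuous_const.sub (continuous_const.mul (Complex.continuous_re.comp (hmc i i)))
  have hq0 : ∀ k, 0 ≤ q k := fun k => Finset.sum_nonneg fun i _ => by
    have := (hle i k).1
    linarith
  have hq1 : ∀ k, q k ≤ 4 * n := by
    intro k
    calc q k ≤ ∑ _i : Fin n, (4 : ℝ) := Finset.sum_le_sum fun i _ => by
          have := (hle i k).2
          linarith
      _ = 4 * n := by simp [mul_comm]
  set F : P.K → ℝ := fun k => 1 - q k / C with hF
  have hFc : Continuous F := continuous_const.sub (hqc.div_const _)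
  have hF0 : ∀ k, 0 ≤ F k := by
    intro k
    have h1 : q k / C ≤ 1 := by
      rw [div_le_one hCpos]
      linarith [hq1 k]
    show 0 ≤ 1 - q k / C
    linarith
  have hF1 : ∀ k, F k ≤ 1 := by
    intro k
    have h1 : 0 ≤ q k / C := div_nonneg (hq0 k) hCpos.le
    show 1 - q k / C ≤ 1
    linarith
  have hFone : F 1 = 1 := by
    have h1 : q 1 = 0 := by
      refine Finset.sum_eq_zero fun i _ => ?_
      have : m i i 1 = 1 := by
        show pr μ (b i : V R) (kact R 1 (b i : V R)) = 1
        rw [map_one, Module.End.one_apply, hone]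
      rw [this, Complex.one_re]
      ring
    show 1 - q 1 / C = 1
    rw [h1, zero_div, sub_zero]
  have hFO : ∀ k, F k = 1 → k ∈ O := by
    intro k hk
    apply hWO
    have h1 : q k = 0 := by
      have : q k / C = 0 := by
        have h2 : 1 - q k / C = 1 := hk
        linarith
      rcases div_eq_zero_iff.1 this with h | h
      · exact h
      · exact absurd h hCpos.ne'
    have h2 : ∀ i, (m i i k).re = 1 := by
      intro i
      have h3 := (Finset.sum_eq_zero_iff_of_nonneg (fun i _ => by
        have := (hle i k).1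
        linarith)).1 h1 i (Finset.mem_univ i)
      linarith
    have h4 : ∀ i, kact R k (b i : V R) = b i := by
      intro i
      have h5 : (pr μ (kact R k (b i : V R) - (b i : V R))
          (kact R k (b i : V R) - (b i : V R))).re = 0 := by
        rw [pr_sub_self_re, pr_kact, hone]
        have h6 : (pr μ (b i : V R) (kact R k (b i : V R))).re = 1 := h2 i
        rw [h6, Complex.one_re]
        ring
      exact sub_eq_zero.1 (pr_self_eq_zero_of_re μ h5)
    intro w hw
    have h7 := congrArg (Subtype.val : W → V R) (hb2 ⟨w, hw⟩)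
    rw [AddSubmonoidClass.coe_finsetSum] at h7
    have h8 : w = ∑ i, cd.inner (b i) ⟨w, hw⟩ • (b i : V R) := h7.symm
    rw [h8, map_sum]
    refine Finset.sum_congr rfl fun i _ => ?_
    rw [map_smul, h4]
  have hFsymm : ∀ k, F k⁻¹ = F k := by
    intro k
    show 1 - q k⁻¹ / C = 1 - q k / C
    have : q k⁻¹ = q k := by
      refine Finset.sum_congr rfl fun i _ => ?_
      have h1 : m i i k⁻¹ = (starRingEnd ℂ) (m i i k) := by
        show pr μ (b i : V R) (kact R k⁻¹ (b i : V R)) = (starRingEnd ℂ)
          (pr μ (b i : V R) (kact R k (b i : V R)))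
        rw [← pr_kact_left, pr_conj]
      rw [h1, Complex.conj_re]
    rw [this]
  have hFrank : FinRank P F := by
    have h1 : FinRank P (fun k => ∑ i, (fun k => 2 + (-2) * (m i i k).re) k) :=
      FinRank.sum _ fun i _ => FinRank.add (finRank_const 2) (FinRank.const_mul (hfr i) (-2))
    have h2 := FinRank.add (finRank_const (P := P) 1) (FinRank.const_mul h1 (-C⁻¹))
    refine cast ?_ h2
    congr 1
    funext k
    show 1 + -C⁻¹ * ∑ i, (2 + (-2) * (m i i k).re) = 1 - (∑ i, (2 - 2 * (m i i k).re)) / C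
    have h3 : ∑ i, (2 + (-2) * (m i i k).re) = ∑ i, (2 - 2 * (m i i k).re) :=
      Finset.sum_congr rfl fun i _ => by ring
    rw [h3, div_eq_mul_inv]
    ring
  obtain ⟨J, hJ⟩ := concentration μ hFc (continuous_const (y := (1 : ℝ))) hF0 hF1
    (fun _ => zero_le_one) hFone one_pos hO hFO hε
  obtain ⟨hZ, hconc⟩ := hJ J le_rfl
  simp only [mul_one] at hZ hconc
  set Z : ℝ := ∫ x, F x ^ J ∂μ with hZdef
  refine ⟨fun k => Z⁻¹ * F k ^ J, ⟨continuous_const.mul (hFc.pow J),
    fun k => mul_nonneg (inv_nonneg.2 hZ.le) (pow_nonneg (hF0 k) J), ?_, ?_,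
    FinRank.const_mul (FinRank.pow hFrank J) _⟩, ?_⟩
  · rw [integral_const_mul, inv_mul_cancel₀ hZ.ne']
  · intro k
    simp only [hFsymm]
  · rw [integral_const_mul, inv_mul_le_iff₀ hZ]
    linarith [hconc]

end Pr

end Pool.Agent.Helper51.SG
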