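import Pool.Agent.Helper51.SG.Avg0

/-! # Sobolev gap, piece AVG-1: averaging operators on `V` -/

open Filter Topology Set MeasureTheory
open scoped RealInnerProductSpace ContDiff

universe u v

namespace Pool.Agent.Helper51.SG

open Pool.Agent.Helper38.SG

variable {G 𝔤 : Type u} [Group G] [TopologicalSpace G] [IsTopologicalGroup G] [T2Space G]
  [NormedAddCommGroup 𝔤] [InnerProductSpace ℝ 𝔤] [FiniteDimensional ℝ 𝔤] {P : ParData G 𝔤}
  {U : Type u} [NormedAddCommGroup U] [InnerProductSpace ℂ U] [FiniteDimensional ℂ U]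
  {R : RepData P U}
  [MeasurableSpace P.K] [BorelSpace P.K] (μ : Measure P.K) [IsProbabilityMeasure μ]
  [μ.IsMulLeftInvariant] [μ.IsMulRightInvariant] [μ.IsInvInvariant] [μ.IsOpenPosMeasure]

/-- elements of `V` lie in finite dimensional `K`-stable subspaces of `V` -/
theorem exists_finite_stable (f : V R) : ∃ W : Submodule ℂ (V R), FiniteDimensional ℂ W ∧
    f ∈ W ∧ ∀ k, ∀ w ∈ W, kact R k w ∈ W := by
  obtain ⟨W, h1, h2, h3⟩ := f.2.2.2
  refine ⟨W.comap (V R).subtype, ?_, h2, fun k w hw => h3 k k.2 _ hw⟩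
  let L : W.comap (V R).subtype →ₗ[ℂ] W :=
    { toFun := fun w => ⟨((w : V R) : G → U), w.2⟩
      map_add' := fun _ _ => rfl
      map_smul' := fun _ _ => rfl }
  refine FiniteDimensional.of_injective L fun a b hab => ?_
  have h4 : ((a : V R) : G → U) = ((b : V R) : G → U) :=
    congrArg (fun w : W => (w : G → U)) hab
  exact Subtype.ext (Subtype.ext h4)

/-- the pairing is a positive definite inner product on `V` -/
theorem pair_self_eq_zero {f : V R} (h : pair μ (f : G → U) (f : G → U) = 0) : f = 0 :=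
  pr_definite μ f h

/-- the pairing on `V` as a sesquilinear map -/
theorem exists_pairV : ∃ b : V R →ₗ⋆[ℂ] V R →ₗ[ℂ] ℂ,
    ∀ h f : V R, b h f = pair μ (h : G → U) (f : G → U) :=
  ⟨{ toFun := fun h => prR μ h
     map_add' := fun h h' => LinearMap.ext fun f => pr_add_left μ h h' f
     map_smul' := fun c h => LinearMap.ext fun f => pr_smul_left μ c h f }, fun _ _ => rfl⟩

theorem pair_conj (h f : V R) :
    (starRingEnd ℂ) (pair μ (h : G → U) (f : G → U)) = pair μ (f : G → U) (h : G → U) :=
  pr_conj μ f h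

omit [IsTopologicalGroup G] [T2Space G] [FiniteDimensional ℝ 𝔤] [μ.IsMulLeftInvariant]
  [μ.IsMulRightInvariant] [μ.IsInvInvariant] [μ.IsOpenPosMeasure] in
/-- continuous functions on `K` are integrable -/
theorem int_cont {E : Type*} [NormedAddCommGroup E] {g : P.K → E} (hg : Continuous g) :
    Integrable g μ :=
  hg.integrable_of_hasCompactSupport (HasCompactSupport.of_compactSpace _)

/-- local construction of the average in a finite dimensional stable subspace -/
theorem exists_avg_local {φ : P.K → ℝ} (hφ : Continuous φ) (W : Submodule ℂ (V R))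
    (hfd : FiniteDimensional ℂ W) (hW : ∀ k, ∀ w ∈ W, kact R k w ∈ W) {f : V R} (hf : f ∈ W) :
    ∃ g ∈ W, (∀ x : G, (g : G → U) x = ∫ k : P.K, φ k • (f : G → U) ((k : G)⁻¹ * x) ∂μ) ∧
      (∀ (E : Type v) [NormedAddCommGroup E] [NormedSpace ℂ E] [CompleteSpace E]
        (j : V R →ₗ[ℂ] E), (Continuous fun k : P.K => j (kact R k f)) ∧
        j g = ∫ k : P.K, φ k • j (kact R k f) ∂μ) := by
  classical
  let cd : InnerProductSpace.Core ℂ W :=
    { inner := fun v w => pr μ (v : V R) (w : V R)
      conj_inner_symm := fun v w => pr_conj μ _ _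
      re_inner_nonneg := fun v => pr_self_nonneg μ _
      add_left := fun v v' w => pr_add_left μ _ _ _
      smul_left := fun v w c => pr_smul_left μ c _ _
      definite := fun v hv => Subtype.ext (pr_definite μ _ hv) }
  obtain ⟨n, b, hb1, hb2, hb3⟩ := exists_onb cd
  set m : Fin n → P.K → ℂ := fun i k => pr μ (b i : V R) (kact R k f) with hm
  have hmc : ∀ i, Continuous (m i) := fun i => continuous_pr μ _ _
  have hexp : ∀ l : P.K, kact R l f = ∑ j, m j l • (b j : V R) := by
    intro l
    have h1 := hb2 ⟨kact R l f, hW l _ hf⟩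
    have h2 := congrArg (Subtype.val : W → V R) h1
    rw [AddSubmonoidClass.coe_finsetSum] at h2
    exact h2.symm
  have hφm : ∀ i, Continuous fun k => (φ k : ℂ) * m i k := fun i =>
    (Complex.continuous_ofReal.comp hφ).mul (hmc i)
  refine ⟨∑ i, (∫ k, (φ k : ℂ) * m i k ∂μ) • (b i : V R),
    W.sum_mem fun i _ => W.smul_mem _ (b i).2, fun x => ?_, fun E _ _ _ j => ?_⟩
  · let ev : V R →ₗ[ℂ] U :=
      { toFun := fun h => (h : G → U) x
        map_add' := fun _ _ => rfl
        map_smul' := fun _ _ => rfl }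
    show ev (∑ i, (∫ k, (φ k : ℂ) * m i k ∂μ) • (b i : V R)) =
      ∫ k : P.K, φ k • ev (kact R k f) ∂μ
    rw [map_sum]
    have h2 : ∀ k : P.K, φ k • ev (kact R k f) = ∑ i, ((φ k : ℂ) * m i k) • ev (b i : V R) := by
      intro k
      rw [hexp k, map_sum, Finset.smul_sum]
      refine Finset.sum_congr rfl fun i _ => ?_
      rw [map_smul, mul_smul, Complex.coe_smul]
    have h3 : ∀ i, Integrable (fun k => ((φ k : ℂ) * m i k) • ev (b i : V R)) μ := fun i =>
      (int_cont μ (hφm i)).smul_const _
    simp only [h2]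
    rw [integral_finsetSum _ fun i _ => h3 i]
    refine Finset.sum_congr rfl fun i _ => ?_
    rw [map_smul, integral_smul_const]
  · have h1 : ∀ k : P.K, j (kact R k f) = ∑ i, m i k • j (b i : V R) := by
      intro k
      rw [hexp k, map_sum]
      exact Finset.sum_congr rfl fun i _ => map_smul _ _ _
    refine ⟨?_, ?_⟩
    · simp only [h1]
      exact continuous_finsetSum _ fun i _ => (hmc i).smul continuous_const
    · rw [map_sum]
      have h2 : ∀ k : P.K, φ k • j (kact R k f) = ∑ i, ((φ k : ℂ) * m i k) • j (b i : V R) := by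
        intro k
        rw [h1 k, Finset.smul_sum]
        refine Finset.sum_congr rfl fun i _ => ?_
        rw [mul_smul, Complex.coe_smul]
      have h3 : ∀ i, Integrable (fun k => ((φ k : ℂ) * m i k) • j (b i : V R)) μ := fun i =>
        (int_cont μ (hφm i)).smul_const _
      simp only [h2]
      rw [integral_finsetSum _ fun i _ => h3 i]
      refine Finset.sum_congr rfl fun i _ => ?_
      rw [map_smul, integral_smul_const]

/-- an element of `V` is determined by its values -/
theorem V_ext {f g : V R} (h : ∀ x, (f : G → U) x = (g : G → U) x) : f = g :=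
  Subtype.ext (funext h)

theorem V_ext_K {f g : V R} (h : ∀ k : P.K, (f : G → U) k = (g : G → U) k) : f = g := by
  refine V_ext fun x => ?_
  rw [f.2.2.1.apply_eq x, g.2.2.1.apply_eq x]
  have h5 : (f : G → U) (P.κ x) = (g : G → U) (P.κ x) := h ⟨P.κ x, P.κ_mem x⟩
  rw [h5]

theorem cont_avg {φ : P.K → ℝ} (hφ : Continuous φ) (f : V R) (x : G) :
    Continuous fun k : P.K => φ k • (f : G → U) ((k : G)⁻¹ * x) :=
  hφ.smul (f.2.1.comp ((continuous_subtype_val.inv).mul continuous_const))

/-- AVG-1: the averaging operator `T_φ f = ∫ φ(k) π(k) f dk` on `V`: it exists, is the weak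
integral for every linear map to a Banach space, is symmetric for the pairing and has finite
rank. -/
theorem exists_avg {φ : P.K → ℝ} (hφ : Kernel μ φ) :
    ∃ T : V R →ₗ[ℂ] V R,
      (∀ (f : V R) (x : G), (T f : G → U) x = ∫ k : P.K, φ k • (f : G → U) ((k : G)⁻¹ * x) ∂μ) ∧
      (∀ (E : Type u) [NormedAddCommGroup E] [NormedSpace ℂ E] [CompleteSpace E]
        (j : V R →ₗ[ℂ] E) (f : V R), (Continuous fun k : P.K => j (kact R k f)) ∧
        j (T f) = ∫ k : P.K, φ k • j (kact R k f) ∂μ) ∧
      (∀ h f : V R, pair μ (T h : G → U) (f : G → U) = pair μ (h : G → U) (T f : G → U)) ∧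
      FiniteDimensional ℂ (LinearMap.range T) ∧
      (∀ W : Submodule ℂ (V R), FiniteDimensional ℂ W → (∀ k, ∀ w ∈ W, kact R k w ∈ W) →
        ∀ w ∈ W, T w ∈ W) := by
  classical
  have hex : ∀ f : V R, ∃ g : V R, ∀ x : G,
      (g : G → U) x = ∫ k : P.K, φ k • (f : G → U) ((k : G)⁻¹ * x) ∂μ := by
    intro f
    obtain ⟨W, h1, h2, h3⟩ := exists_finite_stable f
    obtain ⟨g, -, hg, -⟩ := exists_avg_local.{u, u} μ hφ.cont W h1 h3 h2
    exact ⟨g, hg⟩
  choose T0 hT0 using hex
  let T : V R →ₗ[ℂ] V R :=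
    { toFun := T0
      map_add' := fun f g => V_ext fun x => by
        show (T0 (f + g) : G → U) x = (T0 f : G → U) x + (T0 g : G → U) x
        rw [hT0, hT0, hT0, ← integral_add (int_cont μ (cont_avg hφ.cont f x))
          (int_cont μ (cont_avg hφ.cont g x))]
        refine integral_congr_ae (Eventually.of_forall fun k => ?_)
        exact smul_add _ _ _
      map_smul' := fun c f => V_ext fun x => by
        show (T0 (c • f) : G → U) x = c • (T0 f : G → U) x
        rw [hT0, hT0, ← integral_smul]
        refine integral_congr_ae (Eventually.of_forall fun k => ?_)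
        exact smul_comm (φ k) c ((f : G → U) ((k : G)⁻¹ * x)) }
  have hT : ∀ (f : V R) (x : G),
      (T f : G → U) x = ∫ k : P.K, φ k • (f : G → U) ((k : G)⁻¹ * x) ∂μ := hT0
  have hloc : ∀ (W : Submodule ℂ (V R)), FiniteDimensional ℂ W →
      (∀ k, ∀ w ∈ W, kact R k w ∈ W) → ∀ f ∈ W, T f ∈ W := by
    intro W hfd hW f hf
    obtain ⟨g, hgW, hg, -⟩ := exists_avg_local.{u, u} μ hφ.cont W hfd hW hf
    have : T f = g := V_ext fun x => by rw [hT, hg]
    rwa [this]
  have hweak : ∀ (E : Type u) [NormedAddCommGroup E] [NormedSpace ℂ E] [CompleteSpace E]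
        (j : V R →ₗ[ℂ] E) (f : V R), (Continuous fun k : P.K => j (kact R k f)) ∧
        j (T f) = ∫ k : P.K, φ k • j (kact R k f) ∂μ := by
    intro E _ _ _ j f
    obtain ⟨W, h1, h2, h3⟩ := exists_finite_stable f
    obtain ⟨g, -, hg, hj⟩ := exists_avg_local.{u, u} μ hφ.cont W h1 h3 h2
    have : T f = g := V_ext fun x => by rw [hT, hg]
    rw [this]
    exact hj E j
  have hweakC : ∀ (h f : V R), pr μ h (T f) = ∫ k : P.K, φ k • pr μ h (kact R k f) ∂μ := by
    intro h f
    obtain ⟨W, h1, h2, h3⟩ := exists_finite_stable f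
    obtain ⟨g, -, hg, hj⟩ := exists_avg_local.{u, 0} μ hφ.cont W h1 h3 h2
    have : T f = g := V_ext fun x => by rw [hT, hg]
    rw [this]
    exact (hj ℂ (prR μ h)).2
  refine ⟨T, hT, hweak, ?_, ?_, hloc⟩
  · intro h f
    show pr μ (T h) f = pr μ h (T f)
    rw [← pr_conj μ (T h) f, hweakC, hweakC, ← integral_conj,
      ← integral_inv_eq_self (fun k : P.K => φ k • pr μ h (kact R k f)) μ]
    refine integral_congr_ae (Eventually.of_forall fun k => ?_)
    show (starRingEnd ℂ) (φ k • pr μ f (kact R k h)) = φ k⁻¹ • pr μ h (kact R k⁻¹ f)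
    rw [hφ.symm k, ← pr_kact_left, ← pr_conj μ (kact R k h) f, ← Complex.coe_smul,
      ← Complex.coe_smul, smul_eq_mul, smul_eq_mul, map_mul, Complex.conj_ofReal]
  · obtain ⟨n, a, b, ha, hb, hab⟩ := hφ.rank
    have hbc : ∀ (i : Fin n) (f : V R), Continuous fun k : P.K => b i k • (f : G → U) ((k : G)⁻¹) :=
      fun i f => (hb i).smul (f.2.1.comp continuous_subtype_val.inv)
    let L : V R →ₗ[ℂ] (Fin n → U) :=
      { toFun := fun f i => ∫ k : P.K, b i k • (f : G → U) ((k : G)⁻¹) ∂μ
        map_add' := fun f g => funext fun i => by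
          show _ = (∫ k : P.K, b i k • (f : G → U) ((k : G)⁻¹) ∂μ) +
            ∫ k : P.K, b i k • (g : G → U) ((k : G)⁻¹) ∂μ
          rw [← integral_add (int_cont μ (hbc i f)) (int_cont μ (hbc i g))]
          refine integral_congr_ae (Eventually.of_forall fun k => ?_)
          exact smul_add _ _ _
        map_smul' := fun c f => funext fun i => by
          show _ = c • ∫ k : P.K, b i k • (f : G → U) ((k : G)⁻¹) ∂μ
          rw [← integral_smul]
          refine integral_congr_ae (Eventually.of_forall fun k => ?_)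
          exact smul_comm (b i k) c ((f : G → U) ((k : G)⁻¹)) }
    have hTK : ∀ (f : V R) (l : P.K), (T f : G → U) l = ∑ i, a i l • L f i := by
      intro f l
      rw [hT]
      have h1 : ∫ k : P.K, φ k • (f : G → U) ((k : G)⁻¹ * (l : G)) ∂μ =
          ∫ k : P.K, φ (l * k) • (f : G → U) ((k : G)⁻¹) ∂μ := by
        rw [← integral_mul_left_eq_self (fun k : P.K => φ k • (f : G → U) ((k : G)⁻¹ * (l : G))) l]
        refine integral_congr_ae (Eventually.of_forall fun k => ?_)
        show φ (l * k) • (f : G → U) (((l * k : P.K) : G)⁻¹ * (l : G)) = _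
        congr 2
        rw [Subgroup.coe_mul, mul_inv_rev, inv_mul_cancel_right]
      rw [h1]
      have h2 : ∀ k : P.K, φ (l * k) • (f : G → U) ((k : G)⁻¹) =
          ∑ i, a i l • (b i k • (f : G → U) ((k : G)⁻¹)) := by
        intro k
        rw [hab, Finset.sum_smul]
        exact Finset.sum_congr rfl fun i _ => mul_smul _ _ _
      have h3 : ∀ i, Integrable (fun k : P.K => a i l • (b i k • (f : G → U) ((k : G)⁻¹))) μ :=
        fun i => (int_cont μ (hbc i f)).smul (a i l)
      simp only [h2]
      rw [integral_finsetSum _ fun i _ => h3 i]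
      refine Finset.sum_congr rfl fun i _ => ?_
      rw [integral_smul]
      rfl
    have hker : LinearMap.ker L ≤ LinearMap.ker T := by
      intro f hf
      rw [LinearMap.mem_ker] at hf ⊢
      refine V_ext_K fun l => ?_
      rw [hTK, hf]
      simp
    have h4 : LinearMap.range ((LinearMap.ker L).liftQ T hker) = LinearMap.range T :=
      Submodule.range_liftQ _ _ _
    have h5 : FiniteDimensional ℂ (V R ⧸ LinearMap.ker L) :=
      LinearEquiv.finiteDimensional L.quotKerEquivRange.symm
    rw [← h4]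
    infer_instance

end Pool.Agent.Helper51.SG
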